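import Pool.Agent.R42.UB.Core
import Pool.Agent.R42.UB.Geom
import Pool.Agent.R42.UB.Place
import Pool.Agent.R42.UB.Orient
import Pool.Agent.R42.UB.Large
import Pool.Agent.R42.UB.Small
import Pool.Agent.R42.UB.Dual
import Pool.Agent.R42.UB.Final

/-!
# MP_482ee1_co: every planar graph `G` satisfies `ub(G) ≤ ⌈(Δ(G) + 1) / 3⌉ + 1`
-/

namespace Pool.Agent.Results.MP_482ee1_co.NotAttained

open MP_482ee1

/-- Every finite planar graph `G` has a `(⌈(Δ(G) + 1) / 3⌉ + 1)`-unit-bar visibility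
representation, so `ub(G) ≤ ⌈(Δ(G) + 1) / 3⌉ + 1`. -/
theorem result : ∀ (V : Type) [Fintype V] (G : SimpleGraph V) [DecidableRel G.Adj], Planar G →
    HasRep G (⌈((G.maxDegree : ℚ) + 1) / 3⌉₊ + 1) ∧
    ub G ≤ ⌈((G.maxDegree : ℚ) + 1) / 3⌉₊ + 1 :=
  final geom place orient (large orient) (small orient) planar_bound

end Pool.Agent.Results.MP_482ee1_co.NotAttained
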